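import Mathlib.Analysis.InnerProductSpace.PiL2
import Mathlib.Algebra.Order.Round
import Mathlib.Analysis.Normed.Module.FiniteDimension
import Mathlib.Topology.Algebra.Order.LiminfLimsup
import Mathlib.Tactic

/-!
# Near-integer-distance-avoiding sets for general norms (MP_af7c6a_co)

For every `δ < 1/2` and every exponent `A` there are a dimension `d` and a norm on `ℝ^d` for which
the maximal cardinality of a point set of diameter scale `X` all of whose mutual distances stay at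
distance at least `δ` from the integers grows faster than `X ^ A`.
-/

namespace Pool.Agent.Results.MP_af7c6a_co.PolynomialGrowthNorms

open Filter Topology

/-- `𝒩` is a norm on `ℝ^d`. -/
def IsNorm {d : ℕ} (𝒩 : (Fin d → ℝ) → ℝ) : Prop :=
  (∀ x, 𝒩 x = 0 ↔ x = 0) ∧ (∀ (c : ℝ) (x : Fin d → ℝ), 𝒩 (c • x) = |c| * 𝒩 x) ∧
    ∀ x y, 𝒩 (x + y) ≤ 𝒩 x + 𝒩 y

/-- Distance to the nearest integer. -/
noncomputable def distInt (t : ℝ) : ℝ := |t - round t|

/-- There are `n` points in some closed `𝒩`-ball of radius `X` whose mutual `𝒩`-distances are at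
distance at least `δ` from the integers. -/
def Config {d : ℕ} (𝒩 : (Fin d → ℝ) → ℝ) (X δ : ℝ) (n : ℕ) : Prop :=
  ∃ (c : Fin d → ℝ) (p : Fin n → Fin d → ℝ), (∀ i, 𝒩 (p i - c) ≤ X) ∧
    ∀ i j, i ≠ j → δ ≤ distInt (𝒩 (p i - p j))

/-- `N_𝒩(X, δ)`: the largest `n` for which such a configuration exists. -/
noncomputable def maxN {d : ℕ} (𝒩 : (Fin d → ℝ) → ℝ) (X δ : ℝ) : ℕ :=
  sSup {n : ℕ | Config 𝒩 X δ n}

/-! ### The planar building block -/

/-- Integer with digits `ε` in base `c`. -/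
def F (c : ℤ) {M : ℕ} (ε : Fin M → Bool) : ℤ := ∑ i : Fin M, if ε i then c ^ (i : ℕ) else 0

lemma F_succ (c : ℤ) {M : ℕ} (ε : Fin (M + 1) → Bool) :
    F c ε = (if ε 0 then 1 else 0) + c * F c (fun i : Fin M => ε i.succ) := by
  unfold F
  rw [Fin.sum_univ_succ, Finset.mul_sum]
  congr 1
  · simp
  · refine Finset.sum_congr rfl fun i _ => ?_
    simp only [Fin.val_succ]
    split_ifs
    · ring
    · simp

lemma F_nonneg {c : ℤ} (hc : 0 ≤ c) {M : ℕ} (ε : Fin M → Bool) : 0 ≤ F c ε := by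
  unfold F
  refine Finset.sum_nonneg fun i _ => ?_
  split_ifs
  · positivity
  · exact le_refl _

lemma F_le {c : ℤ} (hc : 2 ≤ c) : ∀ {M : ℕ} (ε : Fin M → Bool), F c ε ≤ c ^ M - 1
  | 0, ε => by simp [F]
  | M + 1, ε => by
      have ih := F_le hc (fun i : Fin M => ε i.succ)
      rw [F_succ]
      have h1 : (if ε 0 then (1 : ℤ) else 0) ≤ 1 := by split_ifs <;> norm_num
      rw [pow_succ]
      nlinarith

/-- The invariant: a pair `(U, V)` of positive integers which look like `(c^{2m}, c^m)`. -/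
def Inv (c : ℤ) (m : ℕ) (U V : ℤ) : Prop :=
  (c ^ 2 - 2) * (c ^ 2) ^ m + 1 ≤ (c ^ 2 - 1) * U ∧ (c ^ 2 - 1) * U ≤ c ^ 2 * (c ^ 2) ^ m - 1 ∧
    (c - 2) * c ^ m + 1 ≤ (c - 1) * V ∧ (c - 1) * V ≤ c * c ^ m - 1

lemma Inv_step {c : ℤ} (hc : 2 ≤ c) {m : ℕ} {U V e : ℤ} (h : Inv c m U V) (he : |e| ≤ 1) :
    Inv c (m + 1) (e + c ^ 2 * U) (e + c * V) := by
  obtain ⟨h1, h2, h3, h4⟩ := h
  rw [abs_le] at he
  obtain ⟨he1, he2⟩ := he
  have hc2 : 0 ≤ c ^ 2 - 1 := by nlinarith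
  have hc1 : 0 ≤ c - 1 := by linarith
  have hc0 : 0 ≤ c := by linarith
  have hcc : 0 ≤ c ^ 2 := by positivity
  refine ⟨?_, ?_, ?_, ?_⟩
  · have a := mul_le_mul_of_nonneg_left h1 hcc
    have b := mul_le_mul_of_nonneg_left he1 hc2
    have e1 : (c ^ 2) ^ (m + 1) = (c ^ 2) ^ m * c ^ 2 := pow_succ _ _
    rw [e1]
    nlinarith
  · have a := mul_le_mul_of_nonneg_left h2 hcc
    have b := mul_le_mul_of_nonneg_left he2 hc2
    have e1 : (c ^ 2) ^ (m + 1) = (c ^ 2) ^ m * c ^ 2 := pow_succ _ _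
    rw [e1]
    nlinarith
  · have a := mul_le_mul_of_nonneg_left h3 hc0
    have b := mul_le_mul_of_nonneg_left he1 hc1
    rw [pow_succ]
    nlinarith
  · have a := mul_le_mul_of_nonneg_left h4 hc0
    have b := mul_le_mul_of_nonneg_left he2 hc1
    rw [pow_succ]
    nlinarith

lemma Inv_base (c : ℤ) : Inv c 0 1 1 := by
  refine ⟨?_, ?_, ?_, ?_⟩ <;> rw [pow_zero] <;> linarith

lemma exists_Inv {c : ℤ} (hc : 2 ≤ c) : ∀ {M : ℕ} (ε ε' : Fin M → Bool), ε ≠ ε' →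
    ∃ m, Inv c m (F (c ^ 2) ε - F (c ^ 2) ε') (F c ε - F c ε') ∨
      Inv c m (F (c ^ 2) ε' - F (c ^ 2) ε) (F c ε' - F c ε)
  | 0, ε, ε', h => absurd (Subsingleton.elim ε ε') h
  | M + 1, ε, ε', h => by
      by_cases ht : (fun i : Fin M => ε i.succ) = fun i : Fin M => ε' i.succ
      · have h0 : ε 0 ≠ ε' 0 := by
          intro h0
          apply h
          funext i
          refine Fin.cases h0 (fun i => ?_) i
          exact congrFun ht i
        refine ⟨0, ?_⟩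
        rw [F_succ, F_succ _ ε', F_succ c ε, F_succ c ε', ht]
        cases h1 : ε 0 <;> cases h2 : ε' 0
        · exact absurd (h1.trans h2.symm) h0
        · right; convert Inv_base c using 1 <;> simp
        · left; convert Inv_base c using 1 <;> simp
        · exact absurd (h1.trans h2.symm) h0
      · obtain ⟨m, hm⟩ := exists_Inv hc _ _ ht
        refine ⟨m + 1, ?_⟩
        have hb : ∀ a b : Bool, |(if a then (1 : ℤ) else 0) - (if b then (1 : ℤ) else 0)| ≤ 1 := by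
          intro a b
          cases a <;> cases b <;> simp
        rcases hm with hm | hm
        · left
          have := Inv_step hc hm (hb (ε 0) (ε' 0))
          rw [F_succ, F_succ _ ε', F_succ c ε, F_succ c ε']
          convert this using 1 <;> ring
        · right
          have := Inv_step hc hm (hb (ε' 0) (ε 0))
          rw [F_succ, F_succ _ ε, F_succ c ε', F_succ c ε]
          convert this using 1 <;> ring

/-- From the invariant, `V^2` is within a factor `1 ± 4/c` of `U`. -/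
lemma Inv_bounds {c : ℤ} (hc : 4 ≤ c) {m : ℕ} {U V : ℤ} (h : Inv c m U V) :
    1 ≤ U ∧ (c - 4) * U ≤ c * V ^ 2 ∧ c * V ^ 2 ≤ (c + 4) * U := by
  obtain ⟨h1, h2, h3, h4⟩ := h
  set P : ℤ := c ^ m with hP
  have hP1 : 1 ≤ P := one_le_pow₀ (by linarith)
  have hPP : (c ^ 2) ^ m = P ^ 2 := by rw [hP]; ring
  rw [hPP] at h1 h2
  have hc2 : 0 < c ^ 2 - 1 := by nlinarith
  have hc1 : 0 < c - 1 := by linarith
  have hU : 0 < U := by
    have h5 : 0 < (c ^ 2 - 1) * U := by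
      have : 0 ≤ (c ^ 2 - 2) * P ^ 2 := mul_nonneg (by nlinarith) (by positivity)
      linarith
    exact (mul_pos_iff_of_pos_left hc2).1 h5
  have hs : 0 < (c - 1) ^ 2 * (c + 1) := by positivity
  have hv0 : 0 ≤ (c - 2) * P := mul_nonneg (by linarith) (by linarith)
  have hv1 : ((c - 2) * P) ^ 2 ≤ ((c - 1) * V) ^ 2 := pow_le_pow_left₀ hv0 (by linarith) 2
  have hv2 : ((c - 1) * V) ^ 2 ≤ (c * P) ^ 2 := pow_le_pow_left₀ (by linarith) (by linarith) 2
  refine ⟨by linarith, ?_, ?_⟩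
  · refine le_of_mul_le_mul_left ?_ hs
    have a : (c - 4) * (c - 1) * ((c ^ 2 - 1) * U) ≤ (c - 4) * (c - 1) * (c ^ 2 * P ^ 2) :=
      mul_le_mul_of_nonneg_left (by linarith) (mul_nonneg (by linarith) (by linarith))
    have b : c * (c + 1) * ((c - 2) * P) ^ 2 ≤ c * (c + 1) * ((c - 1) * V) ^ 2 :=
      mul_le_mul_of_nonneg_left hv1 (mul_nonneg (by linarith) (by linarith))
    have d : (c - 4) * (c - 1) * (c ^ 2 * P ^ 2) ≤ c * (c + 1) * ((c - 2) * P) ^ 2 := by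
      have : 0 ≤ (c * P ^ 2) * (2 * c ^ 2 - 4 * c + 4) :=
        mul_nonneg (mul_nonneg (by linarith) (by positivity)) (by nlinarith)
      nlinarith
    nlinarith
  · refine le_of_mul_le_mul_left ?_ hs
    have a : (c + 4) * (c - 1) * ((c ^ 2 - 2) * P ^ 2) ≤ (c + 4) * (c - 1) * ((c ^ 2 - 1) * U) :=
      mul_le_mul_of_nonneg_left (by linarith) (mul_nonneg (by linarith) (by linarith))
    have b : c * (c + 1) * ((c - 1) * V) ^ 2 ≤ c * (c + 1) * (c * P) ^ 2 :=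
      mul_le_mul_of_nonneg_left hv2 (mul_nonneg (by linarith) (by linarith))
    have d : c * (c + 1) * (c * P) ^ 2 ≤ (c + 4) * (c - 1) * ((c ^ 2 - 2) * P ^ 2) := by
      have h8 : 0 ≤ 2 * c ^ 3 - 6 * c ^ 2 - 6 * c + 8 := by
        have e1 : 0 ≤ (c - 4) * (2 * c ^ 2 + 2 * c + 2) := mul_nonneg (by linarith) (by positivity)
        nlinarith
      have : 0 ≤ P ^ 2 * (2 * c ^ 3 - 6 * c ^ 2 - 6 * c + 8) := mul_nonneg (by positivity) h8
      nlinarith
    nlinarith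

/-- The real inequality behind `dist_near_half`. -/
lemma near_half_aux {δ : ℝ} (h0 : 0 < δ) (hδ : δ < 1 / 2) {c T : ℤ} (hc : 4 ≤ c)
    (hcη : 4 ≤ (c : ℝ) * (1 / 2 - δ)) (hT : 1 ≤ (T : ℝ) * (1 / 2 - δ)) {m : ℕ} {U V : ℤ}
    (h : Inv c m U V) :
    ((T ^ 2 * U : ℤ) : ℝ) + δ ≤
        Real.sqrt (((T ^ 2 * U : ℤ) : ℝ) ^ 2 + ((T * V : ℤ) : ℝ) ^ 2) ∧
      Real.sqrt (((T ^ 2 * U : ℤ) : ℝ) ^ 2 + ((T * V : ℤ) : ℝ) ^ 2) ≤
        ((T ^ 2 * U : ℤ) : ℝ) + 1 - δ := by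
  obtain ⟨hU, hl, hu⟩ := Inv_bounds hc h
  have hU' : (1 : ℝ) ≤ (U : ℝ) := by exact_mod_cast hU
  have hl' : ((c : ℝ) - 4) * U ≤ c * (V : ℝ) ^ 2 := by exact_mod_cast hl
  have hu' : (c : ℝ) * (V : ℝ) ^ 2 ≤ (c + 4) * U := by exact_mod_cast hu
  have hc' : (4 : ℝ) ≤ c := by exact_mod_cast hc
  set η : ℝ := 1 / 2 - δ with hη
  have hη0 : 0 < η := by linarith
  have hδη : δ = 1 / 2 - η := by rw [hη]; ring
  have hcpos : (0 : ℝ) < c := by linarith
  have hT1 : 1 ≤ (T : ℝ) ^ 2 * η := by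
    have hTpos : 0 < (T : ℝ) := by
      by_contra hh
      push Not at hh
      nlinarith
    have hT2 : 1 ≤ (T : ℝ) := by nlinarith
    nlinarith
  have hV1 : (1 - η) * U ≤ (V : ℝ) ^ 2 := by
    refine le_of_mul_le_mul_left ?_ hcpos
    nlinarith
  have hV2 : (V : ℝ) ^ 2 ≤ (1 + η) * U := by
    refine le_of_mul_le_mul_left ?_ hcpos
    nlinarith
  have hTT : 0 ≤ (T : ℝ) ^ 2 := sq_nonneg _
  have g1 : (T : ℝ) ^ 2 * ((1 - η) * U) ≤ (T : ℝ) ^ 2 * (V : ℝ) ^ 2 :=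
    mul_le_mul_of_nonneg_left hV1 hTT
  have g2 : (T : ℝ) ^ 2 * (V : ℝ) ^ 2 ≤ (T : ℝ) ^ 2 * ((1 + η) * U) :=
    mul_le_mul_of_nonneg_left hV2 hTT
  have g3 : 1 ≤ (T : ℝ) ^ 2 * U * η := by nlinarith
  push_cast
  have hz : 0 ≤ (T : ℝ) ^ 2 * U := by positivity
  constructor
  · apply Real.le_sqrt_of_sq_le
    rw [hδη]
    nlinarith
  · apply Real.sqrt_le_iff.2
    constructor
    · linarith
    · rw [hδη]
      nlinarith

/-- Two different digit strings give points at distance close to a half-integer. -/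
lemma dist_near_half {δ : ℝ} (h0 : 0 < δ) (hδ : δ < 1 / 2) :
    ∃ c T : ℤ, 4 ≤ c ∧ 1 ≤ T ∧ ∀ (M : ℕ) (ε ε' : Fin M → Bool), ε ≠ ε' →
      ∃ z : ℤ, (z : ℝ) + δ ≤
        Real.sqrt (((T ^ 2 * (F (c ^ 2) ε - F (c ^ 2) ε') : ℤ) : ℝ) ^ 2 +
          ((T * (F c ε - F c ε') : ℤ) : ℝ) ^ 2) ∧
        Real.sqrt (((T ^ 2 * (F (c ^ 2) ε - F (c ^ 2) ε') : ℤ) : ℝ) ^ 2 +
          ((T * (F c ε - F c ε') : ℤ) : ℝ) ^ 2) ≤ z + 1 - δ := by
  have hη0 : 0 < 1 / 2 - δ := by linarith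
  obtain ⟨n, hn⟩ := exists_nat_ge (4 / (1 / 2 - δ))
  have hn' : 4 ≤ (n : ℝ) * (1 / 2 - δ) := by rwa [div_le_iff₀ hη0] at hn
  have hn4 : (4 : ℝ) ≤ n := by nlinarith
  have hc : (4 : ℤ) ≤ (n : ℤ) := by exact_mod_cast hn4
  refine ⟨n, n, hc, by linarith, fun M ε ε' hne => ?_⟩
  obtain ⟨m, hm | hm⟩ := exists_Inv (by linarith) ε ε' hne
  · exact ⟨_, near_half_aux h0 hδ hc (by exact_mod_cast hn') (by push_cast; linarith) hm⟩
  · have h1 := near_half_aux h0 hδ hc (T := n) (by exact_mod_cast hn') (by push_cast; linarith) hm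
    have e : (((n : ℤ) ^ 2 * (F ((n : ℤ) ^ 2) ε - F ((n : ℤ) ^ 2) ε') : ℤ) : ℝ) ^ 2 +
        (((n : ℤ) * (F (n : ℤ) ε - F (n : ℤ) ε') : ℤ) : ℝ) ^ 2 =
        (((n : ℤ) ^ 2 * (F ((n : ℤ) ^ 2) ε' - F ((n : ℤ) ^ 2) ε) : ℤ) : ℝ) ^ 2 +
        (((n : ℤ) * (F (n : ℤ) ε' - F (n : ℤ) ε) : ℤ) : ℝ) ^ 2 := by
      push_cast; ring
    rw [e]
    exact ⟨_, h1⟩

lemma le_distInt {δ D : ℝ} {z : ℤ} (h1 : (z : ℝ) + δ ≤ D) (h2 : D ≤ z + 1 - δ) :
    δ ≤ distInt D := by
  unfold distInt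
  rcases le_or_gt (round D) z with h | h
  · have h' : ((round D : ℤ) : ℝ) ≤ z := by exact_mod_cast h
    exact le_trans (by linarith) (le_abs_self _)
  · have h' : (z : ℝ) + 1 ≤ ((round D : ℤ) : ℝ) := by exact_mod_cast h
    exact le_trans (by linarith) (neg_le_abs _)

lemma distInt_le {D : ℝ} (h : 0 ≤ D) : distInt D ≤ D := by
  unfold distInt
  have := round_le D 0
  simpa [abs_of_nonneg h] using this

/-! ### The norm -/

/-- The ambient space of the construction: `k` Euclidean planes, with the maximum norm. -/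
abbrev E (k : ℕ) : Type := Fin k → EuclideanSpace ℝ (Fin 2)

/-- Grouping the coordinates of `ℝ^(2k)` in pairs. -/
noncomputable def toE (k : ℕ) : (Fin (k * 2) → ℝ) →ₗ[ℝ] E k where
  toFun v := fun i => !₂[v (finProdFinEquiv (i, 0)), v (finProdFinEquiv (i, 1))]
  map_add' x y := by
    funext i
    ext j
    fin_cases j <;> simp
  map_smul' c x := by
    funext i
    ext j
    fin_cases j <;> simp

lemma toE_apply (k : ℕ) (v : Fin (k * 2) → ℝ) (i : Fin k) (j : Fin 2) :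
    toE k v i j = v (finProdFinEquiv (i, j)) := by
  fin_cases j <;> simp [toE]

lemma toE_injective (k : ℕ) : Function.Injective (toE k) := by
  intro x y h
  funext j
  obtain ⟨⟨a, b⟩, rfl⟩ := finProdFinEquiv.surjective j
  rw [← toE_apply k x a b, ← toE_apply k y a b, h]

lemma toE_surjective (k : ℕ) : Function.Surjective (toE k) := by
  intro q
  refine ⟨fun j => q (finProdFinEquiv.symm j).1 (finProdFinEquiv.symm j).2, ?_⟩
  funext i
  ext j
  rw [toE_apply]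
  simp

/-- The norm of the construction on `ℝ^(2k)`: the maximum of the Euclidean norms of the `k`
consecutive pairs of coordinates. -/
noncomputable def planeMaxNorm (k : ℕ) (v : Fin (k * 2) → ℝ) : ℝ := ‖toE k v‖

lemma isNorm_planeMaxNorm (k : ℕ) : IsNorm (planeMaxNorm k) := by
  refine ⟨fun x => ?_, fun c x => ?_, fun x y => ?_⟩
  · unfold planeMaxNorm
    rw [norm_eq_zero]
    constructor
    · intro h
      apply toE_injective k
      rw [h, map_zero]
    · rintro rfl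
      exact map_zero _
  · unfold planeMaxNorm
    rw [map_smul, norm_smul, Real.norm_eq_abs]
  · unfold planeMaxNorm
    rw [map_add]
    exact norm_add_le _ _

lemma bddAbove_config (k : ℕ) {δ : ℝ} (h0 : 0 < δ) (X : ℝ) :
    BddAbove {n : ℕ | Config (planeMaxNorm k) X δ n} := by
  have hc : IsCompact (Metric.closedBall (0 : E k) X) := isCompact_closedBall _ _
  obtain ⟨t, ht, hcov⟩ := Metric.totallyBounded_iff.1 hc.totallyBounded (δ / 2) (by linarith)
  refine ⟨ht.toFinset.card, ?_⟩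
  rintro n ⟨c, p, hp, hsep⟩
  have hmem : ∀ i, ∃ y ∈ t, toE k (p i - c) ∈ Metric.ball y (δ / 2) := by
    intro i
    have : toE k (p i - c) ∈ Metric.closedBall (0 : E k) X := by
      rw [mem_closedBall_zero_iff]
      exact hp i
    have := hcov this
    simpa using this
  choose y hy hy' using hmem
  have hinj : Function.Injective y := by
    intro i j hij
    by_contra hne
    have h1 := hsep i j hne
    have h2 : distInt (planeMaxNorm k (p i - p j)) ≤ planeMaxNorm k (p i - p j) :=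
      distInt_le (norm_nonneg _)
    have h3 : planeMaxNorm k (p i - p j) = dist (toE k (p i - c)) (toE k (p j - c)) := by
      unfold planeMaxNorm
      rw [dist_eq_norm, ← map_sub]
      congr 2
      abel
    have h4 : dist (toE k (p i - c)) (toE k (p j - c)) < δ / 2 + δ / 2 := by
      refine lt_of_le_of_lt (dist_triangle_right _ _ (y i)) ?_
      have a := hy' i
      have b := hy' j
      rw [← hij] at b
      rw [Metric.mem_ball] at a b
      linarith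
    linarith
  calc n = (Finset.univ.image y).card := by
        rw [Finset.card_image_of_injective _ hinj, Finset.card_univ, Fintype.card_fin]
    _ ≤ ht.toFinset.card := by
        apply Finset.card_le_card
        intro z hz
        obtain ⟨i, -, rfl⟩ := Finset.mem_image.1 hz
        rw [Set.Finite.mem_toFinset]
        exact hy i

/-- The point of the construction attached to `k` digit strings. -/
noncomputable def pt (c T : ℤ) {k M : ℕ} (w : Fin k → Fin M → Bool) : E k :=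
  fun i => !₂[((T ^ 2 * F (c ^ 2) (w i) : ℤ) : ℝ), ((T * F c (w i) : ℤ) : ℝ)]

lemma norm_pt_sub (c T : ℤ) {k M : ℕ} (w w' : Fin k → Fin M → Bool) (i : Fin k) :
    ‖(pt c T w - pt c T w') i‖ =
      Real.sqrt (((T ^ 2 * (F (c ^ 2) (w i) - F (c ^ 2) (w' i)) : ℤ) : ℝ) ^ 2 +
        ((T * (F c (w i) - F c (w' i)) : ℤ) : ℝ) ^ 2) := by
  rw [EuclideanSpace.norm_eq, Fin.sum_univ_two]
  simp only [Real.norm_eq_abs, sq_abs]
  congr 2
  · congr 1
    simp [pt]
    ring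
  · congr 1
    simp [pt]
    ring

lemma norm_pt_le {c T : ℤ} (hc : 4 ≤ c) (hT : 1 ≤ T) {k M : ℕ} (w : Fin k → Fin M → Bool) :
    ‖pt c T w‖ ≤ 2 * (T : ℝ) ^ 2 * ((c : ℝ) ^ 2) ^ M := by
  rw [pi_norm_le_iff_of_nonneg (by positivity)]
  intro i
  rw [EuclideanSpace.norm_eq, Fin.sum_univ_two]
  have hc2 : (2 : ℤ) ≤ c ^ 2 := by nlinarith
  have a1 := F_le hc2 (w i)
  have a2 := F_le (by linarith : (2 : ℤ) ≤ c) (w i)
  have b1 := F_nonneg (by positivity : (0 : ℤ) ≤ c ^ 2) (w i)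
  have b2 := F_nonneg (by linarith : (0 : ℤ) ≤ c) (w i)
  have hcc : c ^ M ≤ (c ^ 2) ^ M := pow_le_pow_left₀ (by linarith) (by nlinarith) M
  have hx : T ^ 2 * F (c ^ 2) (w i) ≤ T ^ 2 * (c ^ 2) ^ M :=
    mul_le_mul_of_nonneg_left (by linarith) (by positivity)
  have hy : T * F c (w i) ≤ T ^ 2 * (c ^ 2) ^ M := by
    have e1 : T * F c (w i) ≤ T * (c ^ 2) ^ M :=
      mul_le_mul_of_nonneg_left (by linarith) (by linarith)
    have e2 : T * (c ^ 2) ^ M ≤ T ^ 2 * (c ^ 2) ^ M :=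
      mul_le_mul_of_nonneg_right (by nlinarith) (by positivity)
    linarith
  have hx0 : 0 ≤ T ^ 2 * F (c ^ 2) (w i) := mul_nonneg (by positivity) b1
  have hy0 : 0 ≤ T * F c (w i) := mul_nonneg (by linarith) b2
  set x : ℤ := T ^ 2 * F (c ^ 2) (w i) with hxdef
  set y : ℤ := T * F c (w i) with hydef
  have hx' : (x : ℝ) ≤ (T : ℝ) ^ 2 * ((c : ℝ) ^ 2) ^ M := by exact_mod_cast hx
  have hy' : (y : ℝ) ≤ (T : ℝ) ^ 2 * ((c : ℝ) ^ 2) ^ M := by exact_mod_cast hy
  have hx0' : (0 : ℝ) ≤ x := by exact_mod_cast hx0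
  have hy0' : (0 : ℝ) ≤ y := by exact_mod_cast hy0
  have ex : (pt c T w i) 0 = (x : ℝ) := by simp [pt, hxdef]
  have ey : (pt c T w i) 1 = (y : ℝ) := by simp [pt, hydef]
  rw [ex, ey]
  apply Real.sqrt_le_iff.2
  constructor
  · positivity
  · simp only [Real.norm_eq_abs, sq_abs]
    nlinarith

lemma config_lower {δ : ℝ} (h0 : 0 < δ) {c T : ℤ} (hc : 4 ≤ c) (hT : 1 ≤ T)
    (hcT : ∀ (M : ℕ) (ε ε' : Fin M → Bool), ε ≠ ε' →
      ∃ z : ℤ, (z : ℝ) + δ ≤
        Real.sqrt (((T ^ 2 * (F (c ^ 2) ε - F (c ^ 2) ε') : ℤ) : ℝ) ^ 2 +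
          ((T * (F c ε - F c ε') : ℤ) : ℝ) ^ 2) ∧
        Real.sqrt (((T ^ 2 * (F (c ^ 2) ε - F (c ^ 2) ε') : ℤ) : ℝ) ^ 2 +
          ((T * (F c ε - F c ε') : ℤ) : ℝ) ^ 2) ≤ z + 1 - δ)
    (k M : ℕ) {X : ℝ} (hX : 2 * (T : ℝ) ^ 2 * ((c : ℝ) ^ 2) ^ M ≤ X) :
    Config (planeMaxNorm k) X δ ((2 ^ M) ^ k) := by
  have hcard : Fintype.card (Fin k → Fin M → Bool) = (2 ^ M) ^ k := by
    simp [Fintype.card_pi]
  let e : Fin ((2 ^ M) ^ k) ≃ (Fin k → Fin M → Bool) := (Fintype.equivFinOfCardEq hcard).symm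
  choose g hg using toE_surjective k
  refine ⟨0, fun n => g (pt c T (e n)), fun i => ?_, fun i j hij => ?_⟩
  · unfold planeMaxNorm
    rw [sub_zero, hg]
    exact (norm_pt_le hc hT _).trans hX
  · have hne : e i ≠ e j := fun h => hij (e.injective h)
    unfold planeMaxNorm
    rw [map_sub, hg, hg]
    generalize e i = w at hne
    generalize e j = w' at hne
    have hdiff : ∃ a, w a ≠ w' a := by
      by_contra hh
      push Not at hh
      exact hne (funext hh)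
    obtain ⟨a, ha⟩ := hdiff
    have hk : Nonempty (Fin k) := ⟨a⟩
    obtain ⟨b, hb⟩ := Finite.exists_max (fun i => ‖(pt c T w - pt c T w') i‖)
    have hnorm : ‖pt c T w - pt c T w'‖ = ‖(pt c T w - pt c T w') b‖ := by
      apply le_antisymm
      · rw [pi_norm_le_iff_of_nonneg (norm_nonneg _)]
        exact hb
      · exact norm_le_pi_norm _ b
    have hpos : 0 < ‖(pt c T w - pt c T w') a‖ := by
      rw [norm_pt_sub]
      obtain ⟨z, hz1, hz2⟩ := hcT M _ _ ha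
      have := le_distInt hz1 hz2
      exact lt_of_lt_of_le h0 (this.trans (distInt_le (Real.sqrt_nonneg _)))
    have hbne : w b ≠ w' b := by
      intro h
      have h1 : ‖(pt c T w - pt c T w') b‖ = 0 := by
        rw [norm_pt_sub, h]
        simp
      have := hb a
      linarith
    rw [hnorm, norm_pt_sub]
    obtain ⟨z, hz1, hz2⟩ := hcT M _ _ hbne
    exact le_distInt hz1 hz2

/-- **Main theorem.** (1) There are a dimension, a norm and a `δ` for which `N(X, δ) / X → ∞`.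
(2) In fact, for every `δ ∈ (0, 1/2)` and every exponent `A` there are a dimension `d ≥ 1` and a
norm on `ℝ^d` for which `N(X, δ)` is finite for all `X` and `N(X, δ) / X ^ A → ∞`. -/
theorem result :
    (∃ (d : ℕ) (δ : ℝ) (𝒩 : (Fin d → ℝ) → ℝ), 1 ≤ d ∧ 0 < δ ∧ δ < 1 / 2 ∧ IsNorm 𝒩 ∧
      (∀ X, BddAbove {n : ℕ | Config 𝒩 X δ n}) ∧
      Tendsto (fun X : ℝ => (maxN 𝒩 X δ : ℝ) / X) atTop atTop) ∧
    ∀ δ : ℝ, 0 < δ → δ < 1 / 2 → ∀ A : ℕ, ∃ (d : ℕ) (𝒩 : (Fin d → ℝ) → ℝ), 1 ≤ d ∧ IsNorm 𝒩 ∧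
      (∀ X, BddAbove {n : ℕ | Config 𝒩 X δ n}) ∧
      Tendsto (fun X : ℝ => (maxN 𝒩 X δ : ℝ) / X ^ A) atTop atTop := by
  have key : ∀ δ : ℝ, 0 < δ → δ < 1 / 2 → ∀ A : ℕ, ∃ (d : ℕ) (𝒩 : (Fin d → ℝ) → ℝ),
      1 ≤ d ∧ IsNorm 𝒩 ∧ (∀ X, BddAbove {n : ℕ | Config 𝒩 X δ n}) ∧
      Tendsto (fun X : ℝ => (maxN 𝒩 X δ : ℝ) / X ^ A) atTop atTop := by
    intro δ h0 hδ A
    obtain ⟨c, T, hc, hT, hcT⟩ := dist_near_half h0 hδ
    have hc' : (4 : ℝ) ≤ c := by exact_mod_cast hc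
    have hT' : (1 : ℝ) ≤ T := by exact_mod_cast hT
    set b : ℝ := (c : ℝ) ^ 2 with hb
    have hb1 : 1 < b := by nlinarith
    obtain ⟨k, hk⟩ := pow_unbounded_of_one_lt (b ^ (A + 1)) (one_lt_two : (1 : ℝ) < 2)
    set R : ℝ := 2 * (T : ℝ) ^ 2 with hR
    have hR1 : 0 < R := by positivity
    have hk1 : 1 ≤ k := by
      by_contra hh
      have : k = 0 := by omega
      subst this
      have : (1 : ℝ) < b ^ (A + 1) := one_lt_pow₀ hb1 (by omega)
      simp at hk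
      linarith
    refine ⟨k * 2, planeMaxNorm k, by omega, isNorm_planeMaxNorm k,
      fun X => bddAbove_config k h0 X, ?_⟩
    have hlow : ∀ᶠ X : ℝ in atTop, (1 / (R * b) ^ (A + 1)) * X ≤
        (maxN (planeMaxNorm k) X δ : ℝ) / X ^ A := by
      filter_upwards [eventually_ge_atTop (max R 1)] with X hX
      have hXR : R ≤ X := (le_max_left _ _).trans hX
      have hX1 : 1 ≤ X := (le_max_right _ _).trans hX
      obtain ⟨M, hM1, hM2⟩ := exists_nat_pow_near (x := X / R) (by rw [le_div_iff₀ hR1]; linarith) hb1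
      rw [le_div_iff₀ hR1] at hM1
      rw [div_lt_iff₀ hR1] at hM2
      have hconf : Config (planeMaxNorm k) X δ ((2 ^ M) ^ k) :=
        config_lower h0 hc hT hcT k M (by rw [← hR, ← hb]; linarith)
      have hge : (2 ^ M) ^ k ≤ maxN (planeMaxNorm k) X δ :=
        le_csSup (bddAbove_config k h0 X) hconf
      have hge' : (((2 : ℝ) ^ M) ^ k) ≤ (maxN (planeMaxNorm k) X δ : ℝ) := by exact_mod_cast hge
      have h3 : (b ^ M) ^ (A + 1) ≤ ((2 : ℝ) ^ M) ^ k := by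
        rw [← pow_mul, mul_comm, pow_mul, ← pow_mul 2 M k, mul_comm M k, pow_mul]
        exact pow_le_pow_left₀ (by positivity) hk.le M
      have h4 : X / (R * b) ≤ b ^ M := by
        rw [div_le_iff₀ (by positivity)]
        rw [pow_succ] at hM2
        nlinarith
      have h5 : (X / (R * b)) ^ (A + 1) ≤ (b ^ M) ^ (A + 1) :=
        pow_le_pow_left₀ (by positivity) h4 _
      rw [le_div_iff₀ (by positivity)]
      calc 1 / (R * b) ^ (A + 1) * X * X ^ A = (X / (R * b)) ^ (A + 1) := by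
            rw [div_pow]; ring
        _ ≤ (maxN (planeMaxNorm k) X δ : ℝ) := h5.trans (h3.trans hge')
    refine tendsto_atTop_mono' atTop hlow ?_
    exact Tendsto.const_mul_atTop (by positivity) tendsto_id
  refine ⟨?_, key⟩
  obtain ⟨d, 𝒩, hd, hN, hB, hT⟩ := key (1 / 4) (by norm_num) (by norm_num) 1
  exact ⟨d, 1 / 4, 𝒩, hd, by norm_num, by norm_num, hN, hB, by simpa using hT⟩

end Pool.Agent.Results.MP_af7c6a_co.PolynomialGrowthNorms
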